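import Mathlib
import Pool.Agent.Helper7.Comm.NC
import Pool.Agent.Helper7.Comm.MagnusDefs

set_option autoImplicit false

/-! # Computability wrapper for commutator equations in free nilpotent groups -/

namespace Pool.Agent.Helper69.MagnusComputable

open Pool.Agent.Helper7.Comm
open scoped commutatorElement

section words

variable {r : ℕ}

/-- all words of length at most `n` -/
noncomputable def aw (r : ℕ) : ℕ → List (List (Fin r × Bool))
  | 0 => [[]]
  | n + 1 => [] :: (aw r n).flatMap
      (fun l => (Finset.univ : Finset (Fin r × Bool)).toList.map (fun x => x :: l))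

theorem mem_aw {n : ℕ} {l : List (Fin r × Bool)} (h : l.length ≤ n) : l ∈ aw r n := by
  induction n generalizing l with
  | zero =>
    have : l = [] := List.length_eq_zero_iff.mp (by omega)
    simp [aw, this]
  | succ n ih =>
    cases l with
    | nil => simp [aw]
    | cons x l =>
      simp only [aw, List.mem_cons, List.cons_ne_nil, false_or]
      rw [List.mem_flatMap]
      refine ⟨l, ih (by simpa using h), ?_⟩
      simp

theorem primrec_aw : Primrec (aw r) := by
  have : Primrec₂ (fun (l : List (Fin r × Bool)) (x : Fin r × Bool) => x :: l) :=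
    (Primrec.list_cons.comp Primrec.snd Primrec.fst).to₂
  have h2 : Primrec (fun l : List (Fin r × Bool) =>
      (Finset.univ : Finset (Fin r × Bool)).toList.map (fun x => x :: l)) :=
    Primrec.list_map (Primrec.const _) this
  have h3 : Primrec (fun L : List (List (Fin r × Bool)) => L.flatMap
      (fun l => (Finset.univ : Finset (Fin r × Bool)).toList.map (fun x => x :: l))) :=
    Primrec.list_flatMap Primrec.id (h2.comp Primrec.snd).to₂
  have h4 : Primrec (fun L : List (List (Fin r × Bool)) => ([] : List (Fin r × Bool)) :: L.flatMap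
      (fun l => (Finset.univ : Finset (Fin r × Bool)).toList.map (fun x => x :: l))) :=
    Primrec.list_cons.comp (Primrec.const []) h3
  refine (Primrec.nat_rec' (f := fun n : ℕ => n) (g := fun _ => [[]])
    (h := fun _ p => ([] : List (Fin r × Bool)) :: p.2.flatMap
      (fun l => (Finset.univ : Finset (Fin r × Bool)).toList.map (fun x => x :: l)))
    Primrec.id (Primrec.const _) (h4.comp (Primrec.snd.comp Primrec.snd)).to₂).of_eq ?_
  intro n
  induction n with
  | zero => rfl
  | succ n ih => simp only [aw]; rw [← ih]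

end words

section coeff

variable {r : ℕ}

/-- the Magnus coefficient of `v` as a difference of two natural numbers -/
def cf : List (Fin r) → List (Fin r × Bool) → ℕ × ℕ
  | [], _ => (1, 0)
  | _ :: _, [] => (0, 0)
  | a :: v, x :: w =>
    if x.1 = a then
      (if x.2 then ((cf (a :: v) w).1 + (cf v w).1, (cf (a :: v) w).2 + (cf v w).2)
       else ((cf (a :: v) w).1 + (cf v (x :: w)).2, (cf (a :: v) w).2 + (cf v (x :: w)).1))
    else cf (a :: v) w

theorem primrec_cf (v : List (Fin r)) : Primrec (cf v) := by
  induction v with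
  | nil =>
    refine (Primrec.const (1, 0)).of_eq ?_
    intro w; cases w <;> simp [cf]
  | cons a v ih =>
    have key := Primrec.list_rec (α := List (Fin r × Bool)) (β := Fin r × Bool) (σ := ℕ × ℕ)
      (f := fun w => w) (g := fun _ => (0, 0))
      (h := fun _ q => if q.1.1 = a then
        (if q.1.2 = true then (q.2.2.1 + (cf v q.2.1).1, q.2.2.2 + (cf v q.2.1).2)
         else (q.2.2.1 + (cf v (q.1 :: q.2.1)).2, q.2.2.2 + (cf v (q.1 :: q.2.1)).1))
        else q.2.2) Primrec.id (Primrec.const _) ?_
    · refine key.of_eq ?_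
      intro w
      induction w with
      | nil => simp [cf]
      | cons x w ihw =>
        simp only [cf]
        rw [← ihw]
    · unfold Primrec₂
      have s : Primrec (fun p : List (Fin r × Bool) ×
          ((Fin r × Bool) × List (Fin r × Bool) × (ℕ × ℕ)) => p.2) := Primrec.snd
      have hx := Primrec.fst.comp s
      have hw := Primrec.fst.comp (Primrec.snd.comp s)
      have hi := Primrec.snd.comp (Primrec.snd.comp s)
      have hcw := ih.comp hw
      have hcxw := ih.comp (Primrec.list_cons.comp hx hw)
      refine Primrec.ite ?_ ?_ ?_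
      · exact Primrec.eq.comp (Primrec.fst.comp hx) (Primrec.const a)
      · refine Primrec.ite ?_ ?_ ?_
        · exact Primrec.eq.comp (Primrec.snd.comp hx) (Primrec.const true)
        · exact Primrec.pair
            (Primrec.nat_add.comp (Primrec.fst.comp hi) (Primrec.fst.comp hcw))
            (Primrec.nat_add.comp (Primrec.snd.comp hi) (Primrec.snd.comp hcw))
        · exact Primrec.pair
            (Primrec.nat_add.comp (Primrec.fst.comp hi) (Primrec.snd.comp hcxw))
            (Primrec.nat_add.comp (Primrec.snd.comp hi) (Primrec.fst.comp hcxw))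
      · exact hi

theorem mag_eq_cf (w : List (Fin r × Bool)) (v : List (Fin r)) :
    ((mag ℤ (FreeGroup.mk w) : (NC (Fin r) ℤ)ˣ) : NC (Fin r) ℤ) v =
      ((cf v w).1 : ℤ) - (cf v w).2 := by
  induction w generalizing v with
  | nil =>
    have : (FreeGroup.mk ([] : List (Fin r × Bool))) = 1 := rfl
    rw [this, map_one]
    cases v with
    | nil => simp [cf]
    | cons a v => simp [cf]
  | cons x w ihw =>
    obtain ⟨b, s⟩ := x
    set g : NC (Fin r) ℤ := ((mag ℤ (FreeGroup.mk w) : (NC (Fin r) ℤ)ˣ) : NC (Fin r) ℤ) with hg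
    set h : NC (Fin r) ℤ :=
      ((mag ℤ (FreeGroup.mk ((b, s) :: w)) : (NC (Fin r) ℤ)ˣ) : NC (Fin r) ℤ) with hh
    have hmk : FreeGroup.mk ((b, s) :: w) = FreeGroup.mk [(b, s)] * FreeGroup.mk w := by
      rw [FreeGroup.mul_mk]; rfl
    have hcons : ∀ (f : NC (Fin r) ℤ) (a : Fin r) (v : List (Fin r)),
        ((1 + NC.letter b) * f : NC (Fin r) ℤ) (a :: v) = f (a :: v) + (if b = a then f v else 0) := by
      intro f a v
      rw [NC.mul_cons, NC.D_add, NC.D_one, NC.D_letter]
      by_cases hab : a = b
      · subst hab; simp [NC.letter_nil]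
      · have : ¬ b = a := fun h => hab h.symm
        simp [NC.letter_nil, hab, this]
    have hnil : ∀ f : NC (Fin r) ℤ, ((1 + NC.letter b) * f : NC (Fin r) ℤ) [] = f [] := by
      intro f; simp [NC.letter_nil]
    cases s with
    | true =>
      have e : h = (1 + NC.letter b) * g := by
        rw [hh, hmk, map_mul, Units.val_mul, ← hg, ← mag_of]
        rfl
      cases v with
      | nil => rw [e, hnil, ihw]; simp [cf]
      | cons a v =>
        rw [e, hcons, ihw, ihw]
        by_cases hab : b = a
        · simp only [cf, hab, if_true]; push_cast; ring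
        · simp [cf, hab]
    | false =>
      have e : (1 + NC.letter b) * h = g := by
        have h1 : FreeGroup.of b * FreeGroup.mk ((b, false) :: w) = FreeGroup.mk w := by
          rw [hmk, ← mul_assoc]
          have : FreeGroup.of b * FreeGroup.mk [(b, false)] = 1 := by
            have : FreeGroup.mk [(b, false)] = (FreeGroup.of b)⁻¹ := rfl
            rw [this, mul_inv_cancel]
          rw [this, one_mul]
        rw [← mag_of, hh, ← Units.val_mul, ← map_mul, h1]
      induction v with
      | nil =>
        have := hnil h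
        rw [e, ihw] at this
        rw [← this]; simp [cf]
      | cons a v ihv =>
        have := hcons h a v
        rw [e, ihw, ihv] at this
        by_cases hab : b = a
        · simp only [hab, if_true] at this ihv ⊢
          simp only [cf, if_true, Bool.false_eq_true, if_false]
          push_cast
          linarith
        · simp only [hab, if_false, add_zero] at this
          rw [← this]
          simp [cf, hab]

end coeff

/-- all nonempty words of length at most `c` -/
theorem finite_vv (r c : ℕ) : ∃ L : List (List (Fin r)), ∀ v : List (Fin r),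
    v ∈ L ↔ (v ≠ [] ∧ v.length ≤ c) := by
  have : {v : List (Fin r) | v ≠ [] ∧ v.length ≤ c}.Finite :=
    (List.finite_length_le (Fin r) c).subset (fun v hv => hv.2)
  refine ⟨this.toFinset.toList, fun v => ?_⟩
  simp

theorem primrecPred_forall {α β : Type*} [Primcodable α] (p : β → α → Prop)
    (hp : ∀ b, PrimrecPred (p b)) (L : List β) : PrimrecPred (fun a => ∀ b ∈ L, p b a) := by
  induction L with
  | nil => 
    refine PrimrecPred.of_eq (p := fun _ => (0 : ℕ) = 0) ?_ (by simp)
    exact Primrec.eq.comp (Primrec.const 0) (Primrec.const 0)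
  | cons b L ih =>
    exact PrimrecPred.of_eq ((hp b).and ih) (by simp)

theorem primrec_pow (C : ℕ) : Primrec (fun n : ℕ => n ^ C) := by
  induction C with
  | zero => exact (Primrec.const 1).of_eq (by simp)
  | succ C ih => exact (Primrec.nat_mul.comp ih Primrec.id).of_eq (fun n => by simp [pow_succ])

theorem computable_of_bound (r c C : ℕ)
    (hmem : ∀ g : FreeGroup (Fin r), g ∈ (⊤ : Subgroup (FreeGroup (Fin r))).lowerCentralSeries c ↔
      ∀ v : List (Fin r), v ≠ [] → v.length ≤ c → ((mag ℤ g : (NC (Fin r) ℤ)ˣ) : NC (Fin r) ℤ) v = 0)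
    (hbound : ∀ w : List (Fin r × Bool),
      (∃ x y : FreeGroup (Fin r) ⧸ (⊤ : Subgroup (FreeGroup (Fin r))).lowerCentralSeries c,
        ⁅x, y⁆ = QuotientGroup.mk (FreeGroup.mk w)) →
      ∃ u v : List (Fin r × Bool), u.length ≤ C * (w.length + 1) ^ C ∧ v.length ≤ C * (w.length + 1) ^ C ∧
        ⁅FreeGroup.mk u, FreeGroup.mk v⁆ * (FreeGroup.mk w)⁻¹ ∈
          (⊤ : Subgroup (FreeGroup (Fin r))).lowerCentralSeries c) :
    ComputablePred (fun w : List (Fin r × Bool) =>
      ∃ x y : FreeGroup (Fin r) ⧸ (⊤ : Subgroup (FreeGroup (Fin r))).lowerCentralSeries c,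
        ⁅x, y⁆ = QuotientGroup.mk (FreeGroup.mk w)) := by
  obtain ⟨L, hL⟩ := finite_vv r c
  let T : List (Fin r × Bool) → List (Fin r × Bool) → List (Fin r × Bool) → List (Fin r × Bool) :=
    fun u v w => u ++ (v ++ (FreeGroup.invRev u ++ (FreeGroup.invRev v ++ FreeGroup.invRev w)))
  have hT : ∀ u v w, FreeGroup.mk (T u v w) =
      ⁅FreeGroup.mk u, FreeGroup.mk v⁆ * (FreeGroup.mk w)⁻¹ := by
    intro u v w
    simp only [T, ← FreeGroup.mul_mk, ← FreeGroup.inv_mk, commutatorElement_def, mul_assoc]
  -- the primitive recursive predicate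
  have hQ0 : PrimrecPred (fun t : List (Fin r × Bool) => ∀ v ∈ L, (cf v t).1 = (cf v t).2) :=
    primrecPred_forall (fun v t => (cf v t).1 = (cf v t).2)
      (fun v => Primrec.eq.comp (Primrec.fst.comp (primrec_cf v)) (Primrec.snd.comp (primrec_cf v)))
      L
  have hQ0' : ∀ t : List (Fin r × Bool), (∀ v ∈ L, (cf v t).1 = (cf v t).2) ↔
      FreeGroup.mk t ∈ (⊤ : Subgroup (FreeGroup (Fin r))).lowerCentralSeries c := by
    intro t
    rw [hmem]
    constructor
    · intro h v hv hvc
      rw [mag_eq_cf, h v ((hL v).2 ⟨hv, hvc⟩)]; simp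
    · intro h v hv
      have := h v ((hL v).1 hv).1 ((hL v).1 hv).2
      rw [mag_eq_cf] at this
      omega
  have hinv : Primrec (FreeGroup.invRev : List (Fin r × Bool) → List (Fin r × Bool)) := by
    unfold FreeGroup.invRev
    refine Primrec.list_reverse.comp (Primrec.list_map Primrec.id ?_)
    exact (Primrec.pair (Primrec.fst.comp Primrec.snd)
      (Primrec.not.comp (Primrec.snd.comp Primrec.snd))).to₂
  have hQ : PrimrecPred (fun p : List (Fin r × Bool) × List (Fin r × Bool) × List (Fin r × Bool) =>
      ∀ v ∈ L, (cf v (T p.1 p.2.1 p.2.2)).1 = (cf v (T p.1 p.2.1 p.2.2)).2) := by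
    refine hQ0.comp (f := fun p : List (Fin r × Bool) × List (Fin r × Bool) × List (Fin r × Bool) =>
      T p.1 p.2.1 p.2.2) ?_
    have h1 : Primrec (fun p : List (Fin r × Bool) × List (Fin r × Bool) × List (Fin r × Bool) =>
      p.1) := Primrec.fst
    have h2 : Primrec (fun p : List (Fin r × Bool) × List (Fin r × Bool) × List (Fin r × Bool) =>
      p.2.1) := Primrec.fst.comp Primrec.snd
    have h3 : Primrec (fun p : List (Fin r × Bool) × List (Fin r × Bool) × List (Fin r × Bool) =>
      p.2.2) := Primrec.snd.comp Primrec.snd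
    exact Primrec.list_append.comp h1 (Primrec.list_append.comp h2 (Primrec.list_append.comp
      (hinv.comp h1) (Primrec.list_append.comp (hinv.comp h2) (hinv.comp h3))))
  let N : List (Fin r × Bool) → ℕ := fun w => C * (w.length + 1) ^ C
  have hpow : Primrec (fun n : ℕ => n ^ C) := primrec_pow C
  have hN : Primrec N :=
    Primrec.nat_mul.comp (Primrec.const C)
      (hpow.comp (Primrec.succ.comp Primrec.list_length))
  have hE1 : PrimrecRel (fun (U : List (List (Fin r × Bool)))
      (q : List (Fin r × Bool) × List (Fin r × Bool)) =>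
        ∃ u ∈ U, ∀ v ∈ L, (cf v (T u q.1 q.2)).1 = (cf v (T u q.1 q.2)).2) :=
    PrimrecRel.exists_mem_list (R := fun (u : List (Fin r × Bool))
      (q : List (Fin r × Bool) × List (Fin r × Bool)) =>
        ∀ v ∈ L, (cf v (T u q.1 q.2)).1 = (cf v (T u q.1 q.2)).2) hQ
  have hE2 : PrimrecRel (fun (V : List (List (Fin r × Bool))) (w : List (Fin r × Bool)) =>
        ∃ y ∈ V, ∃ u ∈ aw r (N w), ∀ v ∈ L, (cf v (T u y w)).1 = (cf v (T u y w)).2) := by
    refine PrimrecRel.exists_mem_list (R := fun (y : List (Fin r × Bool))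
      (w : List (Fin r × Bool)) =>
        ∃ u ∈ aw r (N w), ∀ v ∈ L, (cf v (T u y w)).1 = (cf v (T u y w)).2) ?_
    exact PrimrecRel.comp hE1 (f := fun p : List (Fin r × Bool) × List (Fin r × Bool) => aw r (N p.2))
      (g := fun p => (p.1, p.2)) (primrec_aw.comp (hN.comp Primrec.snd))
      (Primrec.pair Primrec.fst Primrec.snd)
  have hE3 : PrimrecPred (fun w : List (Fin r × Bool) =>
        ∃ y ∈ aw r (N w), ∃ u ∈ aw r (N w), ∀ v ∈ L, (cf v (T u y w)).1 = (cf v (T u y w)).2) :=
    PrimrecRel.comp hE2 (f := fun w => aw r (N w)) (g := fun w => w)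
      (primrec_aw.comp hN) Primrec.id
  refine PrimrecPred.computablePred (hE3.of_eq ?_)
  intro w
  constructor
  · rintro ⟨y, -, u, -, h⟩
    rw [hQ0', hT] at h
    refine ⟨QuotientGroup.mk (FreeGroup.mk u), QuotientGroup.mk (FreeGroup.mk y), ?_⟩
    have h2 : (QuotientGroup.mk (⁅FreeGroup.mk u, FreeGroup.mk y⁆ * (FreeGroup.mk w)⁻¹) :
        FreeGroup (Fin r) ⧸ (⊤ : Subgroup (FreeGroup (Fin r))).lowerCentralSeries c) = 1 :=
      (QuotientGroup.eq_one_iff _).2 h
    rw [QuotientGroup.mk_mul, QuotientGroup.mk_inv, mul_inv_eq_one] at h2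
    rw [← h2]
    rfl
  · intro h
    obtain ⟨u, y, hu, hy, huy⟩ := hbound w h
    refine ⟨y, mem_aw hy, u, mem_aw hu, ?_⟩
    rw [hQ0', hT]
    exact huy

end Pool.Agent.Helper69.MagnusComputable
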